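import Pool.Agent.Helper95.LN.Stmts

/-! Row ORB: the orbitals. -/

set_option autoImplicit false

namespace Pool.Agent.Helper9.LN

open MeasureTheory Filter Pool.Agent.Helper95.PW Pool.Agent.Helper95.LN

theorem orb_nr_nonneg (y : R3) : 0 ≤ nr y := Real.sqrt_nonneg _

theorem orb_nr_sq (y : R3) : nr y ^ 2 = y 0 ^ 2 + y 1 ^ 2 + y 2 ^ 2 := by
  unfold nr
  rw [Real.sq_sqrt (by positivity)]

theorem orb_nr_smul (R : ℝ) (hR : 0 ≤ R) (y : R3) : nr (R • y) = R * nr y := by
  have h : (R • y) 0 ^ 2 + (R • y) 1 ^ 2 + (R • y) 2 ^ 2 =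
      R ^ 2 * (y 0 ^ 2 + y 1 ^ 2 + y 2 ^ 2) := by
    simp only [Pi.smul_apply, smul_eq_mul]
    ring
  unfold nr
  rw [h, Real.sqrt_mul (by positivity), Real.sqrt_sq hR]

theorem orb_norm_le_nr (y : R3) : ‖y‖ ≤ nr y := by
  rw [pi_norm_le_iff_of_nonneg (orb_nr_nonneg y)]
  intro i
  rw [Real.norm_eq_abs]
  apply Real.abs_le_sqrt
  fin_cases i <;> simp <;> nlinarith [sq_nonneg (y 0), sq_nonneg (y 1), sq_nonneg (y 2)]

theorem orb_bt_contDiff : ContDiff ℝ (⊤ : ℕ∞) bt := by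
  unfold bt
  exact (Real.smoothTransition.contDiff.comp (by fun_prop)).mul
    (Real.smoothTransition.contDiff.comp (by fun_prop))

theorem orb_bt_low {t : ℝ} (h : t ≤ 1) : bt t = 0 := by
  unfold bt
  rw [Real.smoothTransition.zero_of_nonpos (by linarith), zero_mul]

theorem orb_bt_high {t : ℝ} (h : 2 ≤ t) : bt t = 0 := by
  unfold bt
  rw [Real.smoothTransition.zero_of_nonpos (x := 4 * (2 - t)) (by linarith), mul_zero]

theorem orb_nr_cont : Continuous nr := by
  unfold nr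
  fun_prop

/-- outside the shell the orbital vanishes -/
theorem orb_zero (a : ℝ) (ha : 0 < a) (y : R3) (h : nr y ≤ a / 2 ∨ a ≤ nr y) : orb a y = 0 := by
  have hb : bt (a / nr y) = 0 := by
    rcases h with h | h
    · rcases (orb_nr_nonneg y).eq_or_lt with h0 | h0
      · rw [← h0, div_zero]
        exact orb_bt_low (by norm_num)
      · apply orb_bt_high
        rw [le_div_iff₀ h0]
        linarith
    · apply orb_bt_low
      rw [div_le_one (by linarith)]
      exact h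
  unfold orb
  rw [hb, zero_div, mul_zero]

theorem orb_contDiff (a : ℝ) (ha : 0 < a) : ContDiff ℝ (⊤ : ℕ∞) (orb a) := by
  rw [contDiff_iff_contDiffAt]
  intro y
  by_cases hy : nr y < a / 2
  · have hev : orb a =ᶠ[nhds y] fun _ => (0 : ℝ) := by
      have ho : IsOpen {w : R3 | nr w < a / 2} := isOpen_lt orb_nr_cont continuous_const
      filter_upwards [ho.mem_nhds hy] with w hw
      exact orb_zero a ha w (Or.inl (le_of_lt hw))
    exact contDiffAt_const.congr_of_eventuallyEq hev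
  · have hy0 : 0 < nr y := by linarith
    have hN : y 0 ^ 2 + y 1 ^ 2 + y 2 ^ 2 ≠ 0 := by
      rw [← orb_nr_sq]
      positivity
    have hnr : ContDiffAt ℝ (⊤ : ℕ∞) nr y := by
      have h1 : ContDiffAt ℝ (⊤ : ℕ∞) (fun w : R3 => w 0 ^ 2 + w 1 ^ 2 + w 2 ^ 2) y := by
        fun_prop
      exact h1.sqrt hN
    have hq : ContDiffAt ℝ (⊤ : ℕ∞) (fun w : R3 => a / nr w) y :=
      contDiffAt_const.div hnr hy0.ne'
    have hb : ContDiffAt ℝ (⊤ : ℕ∞) (fun w : R3 => bt (a / nr w)) y :=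
      orb_bt_contDiff.contDiffAt.comp y hq
    have hs : ContDiffAt ℝ (⊤ : ℕ∞) (fun w : R3 => nr w ^ 2) y := hnr.pow 2
    exact contDiffAt_const.mul (hb.div hs (by positivity))

/-- scaling -/
theorem orb_scale (a : ℝ) (ha : 0 < a) (h0 : 0 ≤ 1 / (cb * kap)) (y : R3) :
    orb a y = Real.sqrt a / a ^ 2 * orb 1 (a⁻¹ • y) := by
  have h1 : Real.sqrt (a / (cb * kap)) = Real.sqrt a * Real.sqrt (1 / (cb * kap)) := by
    rw [← Real.sqrt_mul ha.le]
    congr 1
    ring
  unfold orb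
  rw [orb_nr_smul _ (by positivity), h1]
  have h2 : 1 / (a⁻¹ * nr y) = a / nr y := by
    rw [one_div, mul_inv, inv_inv]
    rfl
  rw [h2]
  rcases (orb_nr_nonneg y).eq_or_lt with h3 | h3
  · rw [← h3]
    simp
  · field_simp

theorem orb_pd (a : ℝ) (ha : 0 < a) (h0 : 0 ≤ 1 / (cb * kap)) (i : Fin 3) (y : R3) :
    pd i (orb a) y = Real.sqrt a / a ^ 2 * a⁻¹ * pd i (orb 1) (a⁻¹ • y) := by
  have hf : orb a = fun w => Real.sqrt a / a ^ 2 * orb 1 (a⁻¹ • w) :=
    funext fun w => orb_scale a ha h0 w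
  have hd : DifferentiableAt ℝ (orb 1) (a⁻¹ • y) :=
    ((orb_contDiff 1 one_pos).differentiable (by simp)) _
  have hs : HasFDerivAt (fun w : R3 => a⁻¹ • w) (a⁻¹ • ContinuousLinearMap.id ℝ R3) y :=
    (hasFDerivAt_id y).const_smul a⁻¹
  have hc := (hd.hasFDerivAt.comp y hs).const_mul (Real.sqrt a / a ^ 2)
  unfold pd
  rw [hf]
  have he : fderiv ℝ (fun w => Real.sqrt a / a ^ 2 * orb 1 (a⁻¹ • w)) y =
      (Real.sqrt a / a ^ 2) • ((fderiv ℝ (orb 1) (a⁻¹ • y)).comp
        (a⁻¹ • ContinuousLinearMap.id ℝ R3)) := hc.fderiv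
  rw [he]
  simp only [ContinuousLinearMap.smul_apply, ContinuousLinearMap.comp_apply,
    ContinuousLinearMap.id_apply, map_smul, smul_eq_mul]
  ring

theorem ORB (hPHC : ST_PHC) : ST_ORB := by
  obtain ⟨hcb, hkap, -, hP⟩ := hPHC
  have h0 : 0 ≤ 1 / (cb * kap) := by positivity
  refine ⟨(∑ i, ∫ y, pd i (orb 1) y ^ 2) + 1, ?_, ?_⟩
  · have : 0 ≤ ∑ i, ∫ y, pd i (orb 1) y ^ 2 :=
      Finset.sum_nonneg fun i _ => integral_nonneg fun y => sq_nonneg _
    linarith
  intro a ha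
  obtain ⟨-, -, -, -, -, hint⟩ := hP a ha
  have hsq : ∀ y, orb a y ^ 2 = et a y / kap := by
    intro y
    unfold orb et
    rw [mul_pow, Real.sq_sqrt (by positivity), div_pow]
    have h4 : (nr y ^ 2) ^ 2 = nr y ^ 4 := by ring
    rw [h4]
    field_simp
  refine ⟨orb_contDiff a ha, ?_, ?_, hsq, ?_, ?_⟩
  · refine HasCompactSupport.intro (isCompact_closedBall (0 : R3) a) ?_
    intro y hy
    apply orb_zero a ha y
    right
    rw [mem_closedBall_zero_iff, not_le] at hy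
    exact (hy.trans_le (orb_norm_le_nr y)).le
  · intro y hy
    have hcl : IsClosed {w : R3 | a / 2 ≤ nr w ∧ nr w ≤ a} :=
      (isClosed_le continuous_const orb_nr_cont).inter (isClosed_le orb_nr_cont continuous_const)
    have hsub : Function.support (orb a) ⊆ {w : R3 | a / 2 ≤ nr w ∧ nr w ≤ a} := by
      intro w hw
      rw [Function.mem_support] at hw
      refine ⟨?_, ?_⟩
      · by_contra hcon
        exact hw (orb_zero a ha w (Or.inl (le_of_lt (not_le.1 hcon))))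
      · by_contra hcon
        exact hw (orb_zero a ha w (Or.inr (le_of_lt (not_le.1 hcon))))
    exact closure_minimal hsub hcl hy
  · simp_rw [hsq]
    rw [integral_div, hint, div_self hkap.ne']
  · have hi : ∀ i, ∫ y, pd i (orb a) y ^ 2 = 1 / a ^ 2 * ∫ y, pd i (orb 1) y ^ 2 := by
      intro i
      have h1 : ∀ y, pd i (orb a) y ^ 2 =
          (Real.sqrt a / a ^ 2 * a⁻¹) ^ 2 * (fun w => pd i (orb 1) w ^ 2) (a⁻¹ • y) := by
        intro y
        rw [orb_pd a ha h0 i y]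
        ring
      have hsm := Measure.integral_comp_smul (volume : Measure R3)
        (fun w => pd i (orb 1) w ^ 2) a⁻¹
      have h2 : Module.finrank ℝ R3 = 3 := by simp
      rw [h2, smul_eq_mul] at hsm
      rw [integral_congr_ae (Eventually.of_forall h1), integral_const_mul, hsm]
      have h3 : |((a⁻¹ : ℝ) ^ 3)⁻¹| = a ^ 3 := by
        rw [abs_of_pos (by positivity)]
        rw [inv_pow, inv_inv]
      rw [h3]
      have h4 : (Real.sqrt a / a ^ 2 * a⁻¹) ^ 2 = 1 / a ^ 5 := by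
        rw [mul_pow, div_pow, Real.sq_sqrt ha.le]
        field_simp
      rw [h4]
      field_simp
    rw [Finset.sum_congr rfl fun i _ => hi i, ← Finset.mul_sum]
    rw [one_div, inv_mul_eq_div]
    have : (∑ i, ∫ y, pd i (orb 1) y ^ 2) ≤ (∑ i, ∫ y, pd i (orb 1) y ^ 2) + 1 := by linarith
    gcongr

end Pool.Agent.Helper9.LN
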